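import Pool.Agent.Helper37.RG3.Goals

set_option autoImplicit false
set_option linter.unusedSectionVars false

namespace Pool.Agent.Helper70.RG3

open Finset Pool.Agent.Helper37.RG3

variable {V : Type} [Fintype V] [DecidableEq V]

lemma three_of {S : Finset V} (hS : S.card = 3) {x y : V} (hx : x ∈ S) (hy : y ∈ S)
    (hxy : x ≠ y) : ∃ z, z ≠ x ∧ z ≠ y ∧ S = {x, y, z} := by
  have h1 : ({x, y} : Finset V).card < S.card := by
    rw [hS, Finset.card_pair hxy]
    norm_num
  obtain ⟨z, hz, hz'⟩ := Finset.exists_mem_notMem_of_card_lt_card h1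
  have hzx : z ≠ x := fun h => hz' (by simp [h])
  have hzy : z ≠ y := fun h => hz' (by simp [h])
  refine ⟨z, hzx, hzy, ?_⟩
  symm
  apply Finset.eq_of_subset_of_card_le
  · intro t ht
    simp only [mem_insert, mem_singleton] at ht
    rcases ht with rfl | rfl | rfl <;> assumption
  · rw [hS, Finset.card_eq_three.2 ⟨x, y, z, hxy, hzx.symm, hzy.symm, rfl⟩]

lemma adj_mem {R : V → V → Prop} {S : Finset V} {s v : V} (hs : s ∈ S) (h : R s v) :
    v ∈ S ∨ v ∈ nb R S := by
  by_cases hv : v ∈ S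
  · exact Or.inl hv
  · exact Or.inr (mem_nb.2 ⟨hv, s, hs, h⟩)

/-- bad sets -/
def Bad (R : V → V → Prop) (X : Finset V) (x y : V) (K : Finset V) : Prop :=
  K ⊆ X ∧ Con R K ∧ x ∈ nb R K ∧ y ∈ nb R K ∧ (nb R K).card = 3

lemma no_bad {R : V → V → Prop} {X Z : Finset V} (hR : ∀ u v, R u v → R v u)
    (h : ∀ K, K ⊆ X → Con R K → nb R K ⊆ X ∪ Z ∧ 3 ≤ (nb R K).card)
    (hbad : ∀ x ∈ X, ∀ y ∈ X ∪ Z, x ≠ y → R x y → ∃ K, Bad R X x y K) :
    ∀ (n : ℕ) (x y : V) (K : Finset V), x ∈ X → y ∈ X ∪ Z → x ≠ y → R x y → Bad R X x y K →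
      K.card = n → False := by
  classical
  intro n
  induction n using Nat.strong_induction_on with
  | _ n ih =>
  intro x y K hx hy hxy hRxy hK hn
  obtain ⟨hKX, hKc, hxK, hyK, hc3⟩ := hK
  obtain ⟨z, hzx, hzy, hnbK⟩ := three_of hc3 hxK hyK hxy
  have hzK : z ∈ nb R K := by rw [hnbK]; simp
  obtain ⟨hzK', v, hvK, hRvz⟩ := mem_nb.1 hzK
  have hxK' := (mem_nb.1 hxK).1
  have hyK' := (mem_nb.1 hyK).1
  have hvz : v ≠ z := fun e => hzK' (e ▸ hvK)
  have hvX : v ∈ X := hKX hvK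
  have hzXZ : z ∈ X ∪ Z := (h K hKX hKc).1 hzK
  obtain ⟨K', hK'⟩ := hbad v hvX z hzXZ hvz hRvz
  obtain ⟨hK'X, hK'c, hvK', hzK'2, hc3'⟩ := id hK'
  obtain ⟨w, hwv, hwz, hnbK'⟩ := three_of hc3' hvK' hzK'2 hvz
  have hvK'n := (mem_nb.1 hvK').1
  have hzK'n := (mem_nb.1 hzK'2).1
  have hwK'n : w ∉ K' := by
    have : w ∈ nb R K' := by rw [hnbK']; simp
    exact (mem_nb.1 this).1
  have hvx : v ≠ x := fun e => hxK' (e ▸ hvK)
  have hvy : v ≠ y := fun e => hyK' (e ▸ hvK)
  by_cases hcase : x ∉ K' ∧ y ∉ K'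
  · -- case 1
    obtain ⟨u, huK', hRuv⟩ := (mem_nb.1 hvK').2
    have huK : u ∈ K := by
      rcases adj_mem hvK (hR _ _ hRuv) with h1 | h1
      · exact h1
      · rw [hnbK] at h1
        simp only [mem_insert, mem_singleton] at h1
        rcases h1 with rfl | rfl | rfl
        · exact absurd huK' hcase.1
        · exact absurd huK' hcase.2
        · exact absurd huK' hzK'n
    have hsub : K' ⊆ K := by
      refine Con.subset_of_avoid hK'c ⟨u, mem_inter.2 ⟨huK', huK⟩⟩ ?_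
      intro t ht
      rw [hnbK] at ht
      simp only [mem_insert, mem_singleton] at ht
      rcases ht with rfl | rfl | rfl
      · exact hcase.1
      · exact hcase.2
      · exact hzK'n
    have hlt : K'.card < K.card := Finset.card_lt_card
      ⟨hsub, fun hh => hvK'n (hh hvK)⟩
    exact ih K'.card (by omega) v z K' hvX hzXZ hvz hRvz hK' rfl
  · -- case 2
    have hxyK' : (x ∈ K' ∨ x = w) ∧ (y ∈ K' ∨ y = w) := by
      have key : ∀ s t : V, s ∈ K' → R s t → t ≠ v → t ≠ z → t ∈ K' ∨ t = w := by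
        intro s t hs hst h1 h2
        rcases adj_mem hs hst with h3 | h3
        · exact Or.inl h3
        · rw [hnbK'] at h3
          simp only [mem_insert, mem_singleton] at h3
          rcases h3 with h3 | h3 | h3
          · exact absurd h3 h1
          · exact absurd h3 h2
          · exact Or.inr h3
      by_cases hxin : x ∈ K'
      · exact ⟨Or.inl hxin, key x y hxin hRxy hvy.symm hzy.symm⟩
      · have hyin : y ∈ K' := by
          by_contra hyn
          exact hcase ⟨hxin, hyn⟩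
        exact ⟨key y x hyin (hR _ _ hRxy) hvx.symm hzx.symm, Or.inl hyin⟩
    have hcon2 : Con R (K' ∪ {v}) := by
      refine Con.union hR hK'c (Con.single R v) (Or.inl ?_)
      obtain ⟨u, huK', hRuv⟩ := (mem_nb.1 hvK').2
      exact ⟨u, huK', v, mem_singleton_self v, hRuv⟩
    have hsub2 : K' ∪ {v} ⊆ X := Finset.union_subset hK'X (by simpa using hvX)
    have hcard2 := (h _ hsub2 hcon2).2
    obtain ⟨u, hu, hu'⟩ : ∃ u ∈ nb R (K' ∪ {v}), u ∉ ({z, w} : Finset V) := by
      apply Finset.exists_mem_notMem_of_card_lt_card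
      have := Finset.card_le_two (a := z) (b := w)
      omega
    obtain ⟨hu1, s, hs, hRsu⟩ := mem_nb.1 hu
    simp only [mem_union, mem_singleton, not_or] at hu1
    simp only [mem_insert, mem_singleton, not_or] at hu'
    have hRvu : R v u := by
      rw [mem_union, mem_singleton] at hs
      rcases hs with hs | rfl
      · exfalso
        rcases adj_mem hs hRsu with h3 | h3
        · exact hu1.1 h3
        · rw [hnbK'] at h3
          simp only [mem_insert, mem_singleton] at h3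
          rcases h3 with h3 | h3 | h3
          · exact hu1.2 h3
          · exact hu'.1 h3
          · exact hu'.2 h3
      · exact hRsu
    have huK : u ∈ K := by
      rcases adj_mem hvK hRvu with h3 | h3
      · exact h3
      · exfalso
        rw [hnbK] at h3
        simp only [mem_insert, mem_singleton] at h3
        rcases h3 with rfl | rfl | rfl
        · rcases hxyK'.1 with h4 | h4
          · exact hu1.1 h4
          · exact hu'.2 h4
        · rcases hxyK'.2 with h4 | h4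
          · exact hu1.1 h4
          · exact hu'.2 h4
        · exact hu'.1 rfl
    -- the maximal connected set
    obtain ⟨D, hD, hmax⟩ := Finset.exists_max_image
      ((K \ {v, w}).powerset.filter fun D => u ∈ D ∧ Con R D) Finset.card
      ⟨{u}, by
        rw [mem_filter, mem_powerset]
        refine ⟨?_, mem_singleton_self u, Con.single R u⟩
        rw [Finset.singleton_subset_iff, mem_sdiff]
        refine ⟨huK, ?_⟩
        simp only [mem_insert, mem_singleton, not_or]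
        exact ⟨hu1.2, hu'.2⟩⟩
    rw [mem_filter, mem_powerset] at hD
    obtain ⟨hDsub, huD, hDc⟩ := hD
    have hDK : D ⊆ K := hDsub.trans sdiff_subset
    have hvD : v ∉ D := fun hh => by
      have := hDsub hh
      simp at this
    have hwD : w ∉ D := fun hh => by
      have := hDsub hh
      simp at this
    have hzD : z ∉ D := fun hh => hzK' (hDK hh)
    have hDK' : ∀ d ∈ D, d ∉ K' := by
      intro d hd hdK'
      have : D ⊆ K' := by
        refine Con.subset_of_avoid hDc ⟨d, mem_inter.2 ⟨hd, hdK'⟩⟩ ?_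
        intro t ht
        rw [hnbK'] at ht
        simp only [mem_insert, mem_singleton] at ht
        rcases ht with rfl | rfl | rfl
        · exact hvD
        · exact hzD
        · exact hwD
      exact hu1.1 (this huD)
    have hnbD : nb R D ⊆ {v, z, w} := by
      intro t ht
      by_contra htn
      simp only [mem_insert, mem_singleton, not_or] at htn
      obtain ⟨htD, d, hd, hRdt⟩ := mem_nb.1 ht
      rcases adj_mem (hDK hd) hRdt with h3 | h3
      · have := hmax (D ∪ {t}) (by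
          rw [mem_filter, mem_powerset]
          refine ⟨?_, mem_union_left _ huD, Con.union hR hDc (Con.single R t)
            (Or.inl ⟨d, hd, t, mem_singleton_self t, hRdt⟩)⟩
          refine Finset.union_subset hDsub ?_
          rw [Finset.singleton_subset_iff, mem_sdiff]
          refine ⟨h3, ?_⟩
          simp only [mem_insert, mem_singleton, not_or]
          exact ⟨htn.1, htn.2.2⟩)
        rw [Finset.card_union_of_disjoint (by simpa using htD), Finset.card_singleton] at this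
        omega
      · have htK' : t ∈ K' := by
          rw [hnbK] at h3
          simp only [mem_insert, mem_singleton] at h3
          rcases h3 with rfl | rfl | rfl
          · rcases hxyK'.1 with h4 | h4
            · exact h4
            · exact absurd h4 htn.2.2
          · rcases hxyK'.2 with h4 | h4
            · exact h4
            · exact absurd h4 htn.2.2
          · exact absurd rfl htn.2.1
        rcases adj_mem htK' (hR _ _ hRdt) with h4 | h4
        · exact hDK' d hd h4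
        · rw [hnbK'] at h4
          simp only [mem_insert, mem_singleton] at h4
          rcases h4 with rfl | rfl | rfl
          · exact hvD hd
          · exact hzD hd
          · exact hwD hd
    have hDX : D ⊆ X := hDK.trans hKX
    have hcardD := (h D hDX hDc).2
    have hcard3 : ({v, z, w} : Finset V).card = 3 :=
      Finset.card_eq_three.2 ⟨v, z, w, hvz, hwv.symm, hwz.symm, rfl⟩
    have hnbDeq : nb R D = {v, z, w} := Finset.eq_of_subset_of_card_le hnbD (by omega)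
    have hlt : D.card < K.card := Finset.card_lt_card ⟨hDK, fun hh => hvD (hh hvK)⟩
    refine ih D.card (by omega) v z D hvX hzXZ hvz hRvz ⟨hDX, hDc, ?_, ?_, ?_⟩ rfl
    · rw [hnbDeq]; simp
    · rw [hnbDeq]; simp
    · rw [hnbDeq, hcard3]

/-- contraction of the edge `xy` to `y` -/
def ctr (R : V → V → Prop) (x y : V) : V → V → Prop := fun u v =>
  u ≠ x ∧ v ≠ x ∧ u ≠ v ∧ (R u v ∨ (u = y ∧ R x v) ∨ (v = y ∧ R u x))

lemma ctr_symm {R : V → V → Prop} (hR : ∀ u v, R u v → R v u) (x y : V) :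
    ∀ u v, ctr R x y u v → ctr R x y v u := by
  rintro u v ⟨h1, h2, h3, h4⟩
  refine ⟨h2, h1, h3.symm, ?_⟩
  rcases h4 with h4 | ⟨h4, h5⟩ | ⟨h4, h5⟩
  · exact Or.inl (hR _ _ h4)
  · exact Or.inr (Or.inr ⟨h4, hR _ _ h5⟩)
  · exact Or.inr (Or.inl ⟨h4, hR _ _ h5⟩)

lemma con_lift₁ {R : V → V → Prop} {x y : V} {S : Finset V} (h : Con (ctr R x y) S)
    (hy : y ∉ S) : Con R S := by
  refine ⟨h.1, fun P hP hne hPS => ?_⟩
  obtain ⟨p, hp, q, hq, hpq⟩ := h.2 P hP hne hPS
  refine ⟨p, hp, q, hq, ?_⟩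
  rcases hpq.2.2.2 with h4 | ⟨h4, _⟩ | ⟨h4, _⟩
  · exact h4
  · exact absurd (h4 ▸ hP hp) hy
  · exact absurd (h4 ▸ (mem_sdiff.1 hq).1) hy

lemma con_lift₂ {R : V → V → Prop} (hR : ∀ u v, R u v → R v u) {x y : V} {S : Finset V}
    (h : Con (ctr R x y) S) (hy : y ∈ S) (hx : x ∉ S) (hxy : R x y) : Con R (insert x S) := by
  refine ⟨⟨x, mem_insert_self _ _⟩, fun P hP hne hPS => ?_⟩
  have hyx : y ≠ x := fun e => hx (e ▸ hy)
  by_cases h0 : P.erase x = ∅
  · obtain ⟨p, hp⟩ := hne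
    have hpx : p = x := by
      by_contra hne
      have : p ∈ P.erase x := mem_erase.2 ⟨hne, hp⟩
      rw [h0] at this
      simp at this
    refine ⟨x, hpx ▸ hp, y, mem_sdiff.2 ⟨mem_insert_of_mem hy, fun hyP => ?_⟩, hxy⟩
    have : y ∈ P.erase x := mem_erase.2 ⟨hyx, hyP⟩
    rw [h0] at this
    simp at this
  · have hsub : P.erase x ⊆ S := by
      intro t ht
      rw [mem_erase] at ht
      exact (mem_insert.1 (hP ht.2)).resolve_left ht.1
    by_cases h1 : P.erase x = S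
    · have hyP : y ∈ P := by
        rw [← h1, mem_erase] at hy
        exact hy.2
      have hxP : x ∉ P := by
        intro hxP
        apply hPS
        apply Finset.Subset.antisymm hP
        intro t ht
        rw [mem_insert] at ht
        rcases ht with rfl | ht
        · exact hxP
        · rw [← h1, mem_erase] at ht
          exact ht.2
      exact ⟨y, hyP, x, mem_sdiff.2 ⟨mem_insert_self _ _, hxP⟩, hR _ _ hxy⟩
    · obtain ⟨p, hp, q, hq, hpq⟩ := h.2 (P.erase x) hsub (Finset.nonempty_iff_ne_empty.2 h0) h1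
      rw [mem_erase] at hp
      rw [mem_sdiff, mem_erase, not_and] at hq
      have hqx : q ≠ x := fun e => hx (e ▸ hq.1)
      have hqP : q ∉ P := hq.2 hqx
      have hqI : q ∈ insert x S \ P := mem_sdiff.2 ⟨mem_insert_of_mem hq.1, hqP⟩
      rcases hpq.2.2.2 with h4 | ⟨h4, h5⟩ | ⟨h4, h5⟩
      · exact ⟨p, hp.2, q, hqI, h4⟩
      · by_cases hxP : x ∈ P
        · exact ⟨x, hxP, q, hqI, h5⟩
        · exact ⟨y, h4 ▸ hp.2, x, mem_sdiff.2 ⟨mem_insert_self _ _, hxP⟩, hR _ _ hxy⟩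
      · by_cases hxP : x ∈ P
        · exact ⟨x, hxP, y, h4 ▸ hqI, hxy⟩
        · exact ⟨p, hp.2, x, mem_sdiff.2 ⟨mem_insert_self _ _, hxP⟩, h5⟩

lemma claimA {R : V → V → Prop} {X Z : Finset V} (hR : ∀ u v, R u v → R v u)
    (h : ∀ K, K ⊆ X → Con R K → nb R K ⊆ X ∪ Z ∧ 3 ≤ (nb R K).card)
    {x y : V} (hx : x ∈ X) (hy : y ∈ X ∪ Z) (hxy : x ≠ y) (hRxy : R x y)
    (hnb : ∀ K, ¬ Bad R X x y K) :
    ∀ K, K ⊆ X.erase x → Con (ctr R x y) K →
      nb (ctr R x y) K ⊆ X.erase x ∪ Z ∧ 3 ≤ (nb (ctr R x y) K).card := by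
  intro K hK hKc
  have hxK : x ∉ K := fun hh => by
    have := hK hh
    simp at this
  have hKX : K ⊆ X := hK.trans (Finset.erase_subset _ _)
  have hmemX : ∀ v, v ≠ x → v ∈ X ∪ Z → v ∈ X.erase x ∪ Z := by
    intro v hv hvX
    rw [mem_union] at hvX ⊢
    rcases hvX with h1 | h1
    · exact Or.inl (mem_erase.2 ⟨hv, h1⟩)
    · exact Or.inr h1
  by_cases hyK : y ∈ K
  · have hc := con_lift₂ hR hKc hyK hxK hRxy
    have hsub : insert x K ⊆ X := Finset.insert_subset hx hKX
    obtain ⟨h1, h2⟩ := h _ hsub hc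
    have e1 : nb R (insert x K) ⊆ nb (ctr R x y) K := by
      intro v hv
      obtain ⟨hv1, s, hs, hsv⟩ := mem_nb.1 hv
      rw [mem_insert, not_or] at hv1
      rw [mem_nb]
      refine ⟨hv1.2, ?_⟩
      rw [mem_insert] at hs
      rcases hs with rfl | hs
      · exact ⟨y, hyK, hxy.symm, hv1.1, fun e => hv1.2 (e ▸ hyK), Or.inr (Or.inl ⟨rfl, hsv⟩)⟩
      · exact ⟨s, hs, fun e => hxK (e ▸ hs), hv1.1, fun e => hv1.2 (e ▸ hs), Or.inl hsv⟩
    refine ⟨?_, h2.trans (Finset.card_le_card e1)⟩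
    intro v hv
    obtain ⟨hv1, s, hs, hsv⟩ := mem_nb.1 hv
    apply hmemX v hsv.2.1
    apply h1
    rw [mem_nb, mem_insert, not_or]
    refine ⟨⟨hsv.2.1, hv1⟩, ?_⟩
    rcases hsv.2.2.2 with h4 | ⟨h4, h5⟩ | ⟨h4, h5⟩
    · exact ⟨s, mem_insert_of_mem hs, h4⟩
    · exact ⟨x, mem_insert_self _ _, h5⟩
    · exact absurd (h4 ▸ hyK) hv1
  · have hc := con_lift₁ hKc hyK
    obtain ⟨h1, h2⟩ := h _ hKX hc
    have e1 : (nb R K).erase x ⊆ nb (ctr R x y) K := by
      intro v hv
      rw [mem_erase] at hv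
      obtain ⟨hv1, s, hs, hsv⟩ := mem_nb.1 hv.2
      rw [mem_nb]
      exact ⟨hv1, s, hs, fun e => hxK (e ▸ hs), hv.1, fun e => hv1 (e ▸ hs), Or.inl hsv⟩
    refine ⟨?_, ?_⟩
    · intro v hv
      obtain ⟨hv1, s, hs, hsv⟩ := mem_nb.1 hv
      apply hmemX v hsv.2.1
      rcases hsv.2.2.2 with h4 | ⟨h4, h5⟩ | ⟨h4, h5⟩
      · exact h1 (mem_nb.2 ⟨hv1, s, hs, h4⟩)
      · exact absurd (h4 ▸ hs) hyK
      · exact h4 ▸ hy
    · by_cases hxn : x ∈ nb R K
      · obtain ⟨_, s, hs, hsx⟩ := mem_nb.1 hxn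
        have hyn : y ∈ nb (ctr R x y) K := by
          rw [mem_nb]
          exact ⟨hyK, s, hs, fun e => hxK (e ▸ hs), hxy.symm, fun e => hyK (e ▸ hs),
            Or.inr (Or.inr ⟨rfl, hsx⟩)⟩
        by_cases hyn2 : y ∈ nb R K
        · have h3 : (nb R K).card ≠ 3 := fun e => hnb K ⟨hKX, hc, hxn, hyn2, e⟩
          have h4 := Finset.card_le_card e1
          rw [Finset.card_erase_of_mem hxn] at h4
          omega
        · have e2 : insert y ((nb R K).erase x) ⊆ nb (ctr R x y) K :=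
            Finset.insert_subset hyn e1
          have h4 := Finset.card_le_card e2
          rw [Finset.card_insert_of_notMem (fun hh => hyn2 (mem_erase.1 hh).2),
            Finset.card_erase_of_mem hxn] at h4
          omega
      · rw [Finset.erase_eq_of_notMem hxn] at e1
        exact h2.trans (Finset.card_le_card e1)

/-- the conclusion -/
def Concl (R : V → V → Prop) (X Z : Finset V) : Prop :=
  ∃ a b c : V, Z = {a, b, c} ∧ a ≠ b ∧ a ≠ c ∧ b ≠ c ∧ ∃ W A B C : Finset V,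
    W ⊆ X ∪ Z ∧ A ⊆ X ∪ Z ∧ B ⊆ X ∪ Z ∧ C ⊆ X ∪ Z ∧
    Con R W ∧ Con R A ∧ Con R B ∧ Con R C ∧
    Disjoint W A ∧ Disjoint W B ∧ Disjoint W C ∧ Disjoint A B ∧ Disjoint A C ∧ Disjoint B C ∧
    a ∈ A ∧ b ∈ B ∧ c ∈ C ∧ Tch R W A ∧ Tch R W B ∧ Tch R W C ∧ Tch R B C

/-- lifting of sets -/
def lf (x y : V) (S : Finset V) : Finset V := if y ∈ S then insert x S else S

lemma lf_sub (x y : V) (S : Finset V) : S ⊆ lf x y S := by
  unfold lf
  split_ifs
  · exact Finset.subset_insert _ _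
  · exact Finset.Subset.refl _

lemma lf_mem {x y : V} {S : Finset V} {v : V} (h : v ∈ lf x y S) : v ∈ S ∨ (v = x ∧ y ∈ S) := by
  unfold lf at h
  split_ifs at h with h1
  · rcases mem_insert.1 h with h2 | h2
    · exact Or.inr ⟨h2, h1⟩
    · exact Or.inl h2
  · exact Or.inl h

lemma lf_con {R : V → V → Prop} (hR : ∀ u v, R u v → R v u) {x y : V} {S : Finset V}
    (h : Con (ctr R x y) S) (hx : x ∉ S) (hxy : R x y) : Con R (lf x y S) := by
  unfold lf
  split_ifs with h1
  · exact con_lift₂ hR h h1 hx hxy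
  · exact con_lift₁ h h1

lemma lf_tch {R : V → V → Prop} {x y : V} {S T : Finset V} (h : Tch (ctr R x y) S T) :
    Tch R (lf x y S) (lf x y T) := by
  obtain ⟨s, hs, t, ht, hst⟩ := h
  rcases hst.2.2.2 with h4 | ⟨h4, h5⟩ | ⟨h4, h5⟩
  · exact ⟨s, lf_sub _ _ _ hs, t, lf_sub _ _ _ ht, h4⟩
  · refine ⟨x, ?_, t, lf_sub _ _ _ ht, h5⟩
    unfold lf
    rw [if_pos (h4 ▸ hs)]
    exact mem_insert_self _ _
  · refine ⟨s, lf_sub _ _ _ hs, x, ?_, h5⟩
    unfold lf
    rw [if_pos (h4 ▸ ht)]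
    exact mem_insert_self _ _

lemma lf_disj {x y : V} {S T : Finset V} (h : Disjoint S T) (hS : x ∉ S) (hT : x ∉ T) :
    Disjoint (lf x y S) (lf x y T) := by
  rw [Finset.disjoint_left] at h ⊢
  intro v hv hv'
  rcases lf_mem hv with h1 | ⟨h1, h2⟩ <;> rcases lf_mem hv' with h3 | ⟨h3, h4⟩
  · exact h h1 h3
  · exact hS (h3 ▸ h1)
  · exact hT (h1 ▸ h3)
  · exact h h2 h4

lemma lift_concl {R : V → V → Prop} {X Z : Finset V} (hR : ∀ u v, R u v → R v u)
    (hXZ : Disjoint X Z) {x y : V} (hx : x ∈ X) (hRxy : R x y)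
    (h : Concl (ctr R x y) (X.erase x) Z) : Concl R X Z := by
  obtain ⟨a, b, c, hZ, hab, hac, hbc, W, A, B, C, hW, hA, hB, hC, cW, cA, cB, cC, dWA, dWB, dWC,
    dAB, dAC, dBC, ha, hb, hc, tWA, tWB, tWC, tBC⟩ := h
  have hxn : x ∉ X.erase x ∪ Z := by
    rw [mem_union, not_or]
    exact ⟨by simp, Finset.disjoint_left.1 hXZ hx⟩
  have hsub : ∀ S, S ⊆ X.erase x ∪ Z → lf x y S ⊆ X ∪ Z := by
    intro S hS v hv
    rcases lf_mem hv with h1 | ⟨h1, _⟩
    · have := hS h1
      rw [mem_union] at this ⊢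
      rcases this with h2 | h2
      · exact Or.inl (mem_erase.1 h2).2
      · exact Or.inr h2
    · rw [h1]
      exact mem_union_left _ hx
  have hxW : x ∉ W := fun e => hxn (hW e)
  have hxA : x ∉ A := fun e => hxn (hA e)
  have hxB : x ∉ B := fun e => hxn (hB e)
  have hxC : x ∉ C := fun e => hxn (hC e)
  exact ⟨a, b, c, hZ, hab, hac, hbc, lf x y W, lf x y A, lf x y B, lf x y C,
    hsub W hW, hsub A hA, hsub B hB, hsub C hC, lf_con hR cW hxW hRxy, lf_con hR cA hxA hRxy,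
    lf_con hR cB hxB hRxy, lf_con hR cC hxC hRxy, lf_disj dWA hxW hxA, lf_disj dWB hxW hxB,
    lf_disj dWC hxW hxC, lf_disj dAB hxA hxB, lf_disj dAC hxA hxC, lf_disj dBC hxB hxC,
    lf_sub _ _ _ ha, lf_sub _ _ _ hb, lf_sub _ _ _ hc, lf_tch tWA, lf_tch tWB, lf_tch tWC,
    lf_tch tBC⟩

lemma con_pair {R : V → V → Prop} (hR : ∀ u v, R u v → R v u) {u v : V} (h : R u v) :
    Con R {u, v} := by
  have := Con.union hR (Con.single R u) (Con.single R v)
    (Or.inl ⟨u, mem_singleton_self u, v, mem_singleton_self v, h⟩)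
  exact this

lemma base_non {R : V → V → Prop} {x x' a b c : V} (hR : ∀ u v, R u v → R v u)
    (hxx : x ≠ x') (hab : a ≠ b) (hac : a ≠ c) (hbc : b ≠ c)
    (hd : Disjoint ({x, x'} : Finset V) {a, b, c})
    (h1 : R x a) (h2 : R x b) (h3 : R x c) (h4 : R x' b) (h5 : R x' c) :
    Concl R {x, x'} {a, b, c} := by
  simp only [Finset.disjoint_left, mem_insert, mem_singleton, not_or, forall_eq_or_imp,
    forall_eq] at hd
  obtain ⟨⟨e1, e2, e3⟩, e4, e5, e6⟩ := hd
  refine ⟨a, b, c, rfl, hab, hac, hbc, {x}, {a}, {b, x'}, {c}, ?_, ?_, ?_, ?_, Con.single R x,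
    Con.single R a, con_pair hR (hR _ _ h4), Con.single R c, ?_, ?_, ?_, ?_, ?_, ?_, by simp,
    by simp, by simp, ⟨x, by simp, a, by simp, h1⟩, ⟨x, by simp, b, by simp, h2⟩,
    ⟨x, by simp, c, by simp, h3⟩, ⟨x', by simp, c, by simp, h5⟩⟩
  · intro t; simp; tauto
  · intro t; simp; tauto
  · intro t; simp; tauto
  · intro t; simp; tauto
  all_goals
    simp only [Finset.disjoint_left, mem_insert, mem_singleton, not_or, forall_eq_or_imp,
      forall_eq]
    tauto

lemma base_adj {R : V → V → Prop} {x x' a b c : V} (hR : ∀ u v, R u v → R v u)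
    (hxx : x ≠ x') (hab : a ≠ b) (hac : a ≠ c) (hbc : b ≠ c)
    (hd : Disjoint ({x, x'} : Finset V) {a, b, c})
    (h0 : R x x') (h1 : R x a) (h2 : R x b) (h3 : R x' b) (h4 : R x' c) :
    Concl R {x, x'} {a, b, c} := by
  simp only [Finset.disjoint_left, mem_insert, mem_singleton, not_or, forall_eq_or_imp,
    forall_eq] at hd
  obtain ⟨⟨e1, e2, e3⟩, e4, e5, e6⟩ := hd
  refine ⟨a, b, c, rfl, hab, hac, hbc, {x}, {a}, {b}, {c, x'}, ?_, ?_, ?_, ?_, Con.single R x,
    Con.single R a, Con.single R b, con_pair hR (hR _ _ h4), ?_, ?_, ?_, ?_, ?_, ?_, by simp,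
    by simp, by simp, ⟨x, by simp, a, by simp, h1⟩, ⟨x, by simp, b, by simp, h2⟩,
    ⟨x, by simp, x', by simp, h0⟩, ⟨b, by simp, x', by simp, hR _ _ h3⟩⟩
  · intro t; simp; tauto
  · intro t; simp; tauto
  · intro t; simp; tauto
  · intro t; simp; tauto
  all_goals
    simp only [Finset.disjoint_left, mem_insert, mem_singleton, not_or, 
      forall_eq]
    tauto

lemma pm1 (a b c : V) : ({a, b, c} : Finset V) = {a, c, b} := by ext t; simp; tauto
lemma pm2 (a b c : V) : ({a, b, c} : Finset V) = {b, a, c} := by ext t; simp; tauto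
lemma pm3 (a b c : V) : ({a, b, c} : Finset V) = {b, c, a} := by ext t; simp; tauto
lemma pm4 (a b c : V) : ({a, b, c} : Finset V) = {c, a, b} := by ext t; simp; tauto
lemma pm5 (a b c : V) : ({a, b, c} : Finset V) = {c, b, a} := by ext t; simp; tauto

lemma comb (p₁ p₂ p₃ q₁ q₂ q₃ : Prop) (h₁ : p₁ ∨ p₂) (h₂ : p₁ ∨ p₃) (h₃ : p₂ ∨ p₃)
    (h₄ : q₁ ∨ q₂) (h₅ : q₁ ∨ q₃) (h₆ : q₂ ∨ q₃) (h₇ : p₁ ∨ q₁) (h₈ : p₂ ∨ q₂) (h₉ : p₃ ∨ q₃) :
    (p₁ ∧ p₂ ∧ q₂ ∧ q₃) ∨ (p₁ ∧ p₃ ∧ q₃ ∧ q₂) ∨ (p₂ ∧ p₁ ∧ q₁ ∧ q₃) ∨ (p₂ ∧ p₃ ∧ q₃ ∧ q₁) ∨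
      (p₃ ∧ p₁ ∧ q₁ ∧ q₂) ∨ (p₃ ∧ p₂ ∧ q₂ ∧ q₁) := by
  by_cases a₁ : p₁ <;> by_cases a₂ : p₂ <;> by_cases a₃ : p₃ <;> by_cases b₁ : q₁ <;>
    by_cases b₂ : q₂ <;> by_cases b₃ : q₃ <;> simp [a₁, a₂, a₃, b₁, b₂, b₃] at *

lemma base {R : V → V → Prop} {X Z : Finset V} (hR : ∀ u v, R u v → R v u) (hZ : Z.card = 3)
    (hXZ : Disjoint X Z) (hX : X.card = 2)
    (h : ∀ K, K ⊆ X → Con R K → nb R K ⊆ X ∪ Z ∧ 3 ≤ (nb R K).card) : Concl R X Z := by
  obtain ⟨x, x', hxx, rfl⟩ := Finset.card_eq_two.1 hX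
  -- neighbours of one vertex
  have key : ∀ s t : V, ({x, x'} : Finset V) = {s, t} → s ≠ t →
      (¬ R s t → ∀ z ∈ Z, R s z) ∧ ∀ z ∈ Z, ∀ z' ∈ Z, z ≠ z' → R s z ∨ R s z' := by
    intro s t hst hne
    have hsX : ({s} : Finset V) ⊆ {x, x'} := by
      rw [hst]; simp
    obtain ⟨h1, h2⟩ := h {s} hsX (Con.single R s)
    have h3 : ∀ v ∈ nb R {s}, R s v ∧ (v = t ∨ v ∈ Z) := by
      intro v hv
      obtain ⟨hv1, s', hs', hsv⟩ := mem_nb.1 hv
      rw [mem_singleton] at hs' hv1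
      subst hs'
      refine ⟨hsv, ?_⟩
      have := h1 hv
      rw [hst, mem_union, mem_insert, mem_singleton] at this
      tauto
    constructor
    · intro hn
      have h4 : nb R {s} ⊆ Z := by
        intro v hv
        obtain ⟨h5, h6⟩ := h3 v hv
        rcases h6 with rfl | h6
        · exact absurd h5 hn
        · exact h6
      have h5 := Finset.eq_of_subset_of_card_le h4 (by omega)
      intro z hz
      rw [← h5] at hz
      exact (h3 z hz).1
    · intro z hz z' hz' hzz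
      by_contra hcon
      push Not at hcon
      have h4 : nb R {s} ⊆ insert t (Z \ {z, z'}) := by
        intro v hv
        obtain ⟨h5, h6⟩ := h3 v hv
        rw [mem_insert, mem_sdiff, mem_insert, mem_singleton]
        rcases h6 with h6 | h6
        · exact Or.inl h6
        · refine Or.inr ⟨h6, ?_⟩
          rintro (rfl | rfl)
          · exact hcon.1 h5
          · exact hcon.2 h5
      have h5 := Finset.card_le_card h4
      have h6 := Finset.card_insert_le t (Z \ {z, z'})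
      have h7 : (Z \ {z, z'}).card = 1 := by
        rw [Finset.card_sdiff_of_subset, hZ, Finset.card_pair hzz]
        intro v hv
        simp only [mem_insert, mem_singleton] at hv
        rcases hv with rfl | rfl <;> assumption
      omega
  obtain ⟨k1, k2⟩ := key x x' rfl hxx
  obtain ⟨k3, k4⟩ := key x' x (Finset.pair_comm _ _) hxx.symm
  obtain ⟨a, b, c, hab, hac, hbc, rfl⟩ := Finset.card_eq_three.1 hZ
  by_cases hadj : R x x'
  · have hnbX : ∀ z ∈ ({a, b, c} : Finset V), R x z ∨ R x' z := by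
      obtain ⟨h1, h2⟩ := h {x, x'} (Finset.Subset.refl _) (con_pair hR hadj)
      have h4 : nb R {x, x'} ⊆ {a, b, c} := by
        intro v hv
        have h5 := h1 hv
        have h6 := (mem_nb.1 hv).1
        rw [mem_union] at h5
        exact h5.resolve_left h6
      have h5 := Finset.eq_of_subset_of_card_le h4 (by omega)
      intro z hz
      rw [← h5] at hz
      obtain ⟨_, s, hs, hsz⟩ := mem_nb.1 hz
      rw [mem_insert, mem_singleton] at hs
      rcases hs with rfl | rfl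
      · exact Or.inl hsz
      · exact Or.inr hsz
    have ma : a ∈ ({a, b, c} : Finset V) := by simp
    have mb : b ∈ ({a, b, c} : Finset V) := by simp
    have mc : c ∈ ({a, b, c} : Finset V) := by simp
    have p1 := k2 a ma b mb hab
    have p2 := k2 a ma c mc hac
    have p3 := k2 b mb c mc hbc
    have p4 := k4 a ma b mb hab
    have p5 := k4 a ma c mc hac
    have p6 := k4 b mb c mc hbc
    have p7 := hnbX a ma
    have p8 := hnbX b mb
    have p9 := hnbX c mc
    have hall : (R x a ∧ R x b ∧ R x' b ∧ R x' c) ∨ (R x a ∧ R x c ∧ R x' c ∧ R x' b) ∨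
        (R x b ∧ R x a ∧ R x' a ∧ R x' c) ∨ (R x b ∧ R x c ∧ R x' c ∧ R x' a) ∨
        (R x c ∧ R x a ∧ R x' a ∧ R x' b) ∨ (R x c ∧ R x b ∧ R x' b ∧ R x' a) :=
      comb _ _ _ _ _ _ p1 p2 p3 p4 p5 p6 p7 p8 p9
    rcases hall with ⟨q1, q2, q3, q4⟩ | ⟨q1, q2, q3, q4⟩ | ⟨q1, q2, q3, q4⟩ | ⟨q1, q2, q3, q4⟩ |
      ⟨q1, q2, q3, q4⟩ | ⟨q1, q2, q3, q4⟩
    · exact base_adj hR hxx hab hac hbc hXZ hadj q1 q2 q3 q4
    · rw [pm1 a b c] at hXZ ⊢
      exact base_adj hR hxx hac hab hbc.symm hXZ hadj q1 q2 q3 q4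
    · rw [pm2 a b c] at hXZ ⊢
      exact base_adj hR hxx hab.symm hbc hac hXZ hadj q1 q2 q3 q4
    · rw [pm3 a b c] at hXZ ⊢
      exact base_adj hR hxx hbc hab.symm hac.symm hXZ hadj q1 q2 q3 q4
    · rw [pm4 a b c] at hXZ ⊢
      exact base_adj hR hxx hac.symm hbc.symm hab hXZ hadj q1 q2 q3 q4
    · rw [pm5 a b c] at hXZ ⊢
      exact base_adj hR hxx hbc.symm hac.symm hab.symm hXZ hadj q1 q2 q3 q4
  · have n1 := k1 hadj
    have n2 := k3 (fun e => hadj (hR _ _ e))
    exact base_non hR hxx hab hac hbc hXZ (n1 a (by simp)) (n1 b (by simp)) (n1 c (by simp))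
      (n2 b (by simp)) (n2 c (by simp))

theorem roo : ROO := by
  intro V _ _ R X Z hR hZ hXZ hX h
  have main : ∀ (n : ℕ) (R : V → V → Prop) (X : Finset V), (∀ u v, R u v → R v u) →
      Disjoint X Z → X.card = n + 2 →
      (∀ K, K ⊆ X → Con R K → nb R K ⊆ X ∪ Z ∧ 3 ≤ (nb R K).card) → Concl R X Z := by
    intro n
    induction n with
    | zero =>
      intro R X hR hXZ hX h
      exact base hR hZ hXZ hX h
    | succ n ih =>
      intro R X hR hXZ hX h
      obtain ⟨x, hx, y, hy, hxy, hRxy, hnb⟩ : ∃ x ∈ X, ∃ y ∈ X ∪ Z, x ≠ y ∧ R x y ∧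
          ∀ K, ¬ Bad R X x y K := by
        by_contra hcon
        push Not at hcon
        obtain ⟨x, hx⟩ : X.Nonempty := Finset.card_pos.1 (by omega)
        obtain ⟨h1, h2⟩ := h {x} (by simpa using hx) (Con.single R x)
        obtain ⟨y, hy⟩ : (nb R {x}).Nonempty := Finset.card_pos.1 (by omega)
        obtain ⟨hy1, s, hs, hsy⟩ := mem_nb.1 hy
        rw [mem_singleton] at hs hy1
        subst hs
        obtain ⟨K, hK⟩ := hcon s hx y (h1 hy) (fun e => hy1 e.symm) hsy
        exact no_bad hR h hcon K.card s y K hx (h1 hy) (fun e => hy1 e.symm) hsy hK rfl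
      apply lift_concl hR hXZ hx hRxy
      refine ih (ctr R x y) (X.erase x) (ctr_symm hR x y)
        (Finset.disjoint_of_subset_left (Finset.erase_subset _ _) hXZ) ?_
        (claimA hR h hx hy hxy hRxy hnb)
      rw [Finset.card_erase_of_mem hx, hX]
      omega
  exact main (X.card - 2) R X hR hXZ (by omega) h

end Pool.Agent.Helper70.RG3
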